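import Pool.Agent.Lib.MP_a9c398_gt.CC.Main

/-!
For every `g ≥ 3`, the connected sum of `g` real projective planes (Euler characteristic `2 - g`)
has a smooth embedding into Euclidean four-space that has the two-piece property (is tight) and is
substantial.  The cases `g = 3` and `g = 5` are the surfaces with Euler characteristic `-1`, `-3`.
-/

namespace Pool.Agent.Retired.MP_a9c398_gt.TightCrossCaps

open Pool.Agent.Lib.MP_a9c398_gt Pool.Agent.Lib.MP_a9c398_gt.CC

theorem result (g : ℕ) (hg : 3 ≤ g) :
    ∃ (M : Type) (_ : TopologicalSpace M) (_ : T2Space M) (_ : CompactSpace M)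
      (_ : ConnectedSpace M) (_ : ChartedSpace E2 M), IsSmoothSurface M ∧
      IsSumOfProjectivePlanes g M ∧
      ∃ f : M → E4, IsSmoothImmersion E2 f ∧ Function.Injective f ∧ HasTwoPieceProperty f ∧
        IsSubstantial f := by
  obtain ⟨M, i1, i2, i3, i4, i5, i6, h1, f, h2, h3, h4⟩ := CC.main g hg
  exact ⟨M, i1, i2, i3, i4, i5, i6, h1, f, ⟨h2, h3⟩, h4⟩

end Pool.Agent.Retired.MP_a9c398_gt.TightCrossCaps
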