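import Pool.Agent.Lib.MP_a9c398_gt.Main

/-!
For every `k`, the real projective plane with `k` handles (Euler characteristic `1 - 2k`) has a
smooth immersion into Euclidean four-space that has the two-piece property (is tight) and is
substantial.  The cases `k = 1` and `k = 2` are the surfaces with Euler characteristic `-1`, `-3`.
-/

namespace Pool.Agent.Retired.MP_a9c398_gt.TightHandles

open Pool.Agent.Lib.MP_a9c398_gt

theorem result (k : ℕ) :
    ∃ (M : Type) (_ : TopologicalSpace M) (_ : T2Space M) (_ : CompactSpace M)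
      (_ : ConnectedSpace M) (_ : ChartedSpace E2 M), IsSmoothSurface M ∧
      IsProjectivePlaneWithHandles k M ∧
      ∃ f : M → E4, IsSmoothImmersion E2 f ∧ HasTwoPieceProperty f ∧ IsSubstantial f := by
  obtain ⟨M, i1, i2, i3, i4, i5, i6, h1, f, h2, h3, h4⟩ := main k
  exact ⟨M, i1, i2, i3, i4, i5, i6, h1, f, ⟨h2, h3⟩, h4⟩

end Pool.Agent.Retired.MP_a9c398_gt.TightHandles
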